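import Pool.Agent.helper71.DSW.SpecC

/-! # Row KR3 of project DSW: expectation of the number of moves of at least three points -/

set_option autoImplicit false

namespace Pool.Agent.DSW

open Equiv Finset Function Pool.Agent.helper48.PP
open scoped ENNReal Classical

noncomputable section

theorem KR3_bin {L H : ℕ} (hH : 1 ≤ H) (Q : Finset (Fin L)) (g : Fin (L + 1) → ℕ) :
    (bin Q g : ℝ) ≤ (3 * (H : ℝ)) ^ Q.card * ∏ j ∈ adg Q, (1 + 1 / (2 * (H : ℝ))) ^ g j := by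
  have hH' : (1 : ℝ) ≤ H := by exact_mod_cast hH
  have ht : (0 : ℝ) < 1 / (2 * (H : ℝ)) := by positivity
  rw [Finset.prod_pow_eq_pow_sum]
  unfold bin
  set S := ∑ j ∈ adg Q, g j with hS
  set r := Q.card with hr
  set t : ℝ := 1 / (2 * (H : ℝ)) with htdef
  have h1 : t ^ r * ((S + r).choose r : ℝ) ≤ (t + 1) ^ (S + r) := by
    rw [add_pow]
    have h2 := Finset.single_le_sum (f := fun m => t ^ m * 1 ^ (S + r - m) * ((S + r).choose m : ℝ))
      (s := Finset.range (S + r + 1)) (fun m _ => by positivity) (Finset.mem_range.2 (by omega : r < S + r + 1))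
    simp only [one_pow, mul_one] at h2
    refine h2.trans (le_of_eq (Finset.sum_congr rfl fun m _ => by rw [one_pow, mul_one]))
  have htr : 0 < t ^ r := by positivity
  have h3 : ((S + r).choose r : ℝ) ≤ ((1 + t) / t) ^ r * (1 + t) ^ S := by
    have e1 : ((1 + t) / t) ^ r * (1 + t) ^ S = (t + 1) ^ (S + r) / t ^ r := by
      rw [div_pow, pow_add, add_comm t 1]
      ring
    rw [e1, le_div_iff₀ htr, mul_comm]
    exact h1
  refine h3.trans (mul_le_mul_of_nonneg_right ?_ (by positivity))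
  refine pow_le_pow_left₀ (by positivity) ?_ r
  have e2 : (1 + t) / t = 2 * H + 1 := by
    rw [htdef]
    field_simp
  rw [e2]
  linarith

theorem KR3_enn {L H : ℕ} (hH : 1 ≤ H) (Q : Finset (Fin L)) (g : Fin (L + 1) → ℕ) :
    (bin Q g : ℝ≥0∞) ≤ (3 * (H : ℝ≥0∞)) ^ Q.card *
      ∏ j ∈ adg Q, ENNReal.ofReal ((1 + 1 / (2 * (H : ℝ))) ^ g j) := by
  have h := ENNReal.ofReal_le_ofReal (KR3_bin hH Q g)
  rw [ENNReal.ofReal_natCast, ENNReal.ofReal_mul (by positivity), ENNReal.ofReal_pow (by positivity),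
    ENNReal.ofReal_mul (by norm_num), ENNReal.ofReal_natCast,
    ENNReal.ofReal_prod_of_nonneg (fun j _ => by positivity)] at h
  have e3 : ENNReal.ofReal 3 = 3 := by norm_num
  rw [e3] at h
  exact h

theorem KR3_rw1 {L : ℕ} (R : Finset (Fin L × Fin L)) : ∑ b, (rw1 R b).card = R.card := by
  unfold rw1
  simp only [Finset.card_filter]
  rw [← Fintype.sum_prod_type (f := fun u : Fin L × Fin L => if (u.1, u.2) ∈ R then 1 else 0)]
  simp

theorem KR3_rw2 {L : ℕ} (R : Finset (Fin L × Fin L)) : ∑ i, (rw2 R i).card = R.card := by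
  unfold rw2
  simp only [Finset.card_filter]
  rw [Finset.sum_comm, ← Fintype.sum_prod_type (f := fun u : Fin L × Fin L => if (u.1, u.2) ∈ R then 1 else 0)]
  simp

theorem KR3_adg {L : ℕ} (Q : Finset (Fin L)) : (adg Q).card ≤ 2 * Q.card := by
  unfold adg
  refine (Finset.card_union_le _ _).trans ?_
  have h1 := Finset.card_image_le (s := Q) (f := (Fin.castSucc : Fin L → Fin (L + 1)))
  have h2 := Finset.card_image_le (s := Q) (f := (Fin.succ : Fin L → Fin (L + 1)))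
  omega

/-- the variables which occur -/
def KR3_A {L : ℕ} (R : Finset (Fin L × Fin L)) (α : Bool × Fin L × Fin (L + 1)) : Prop :=
  α.2.2 ∈ if α.1 = true then adg (rw2 R α.2.1) else adg (rw1 R α.2.1)

theorem KR3_split {L : ℕ} (R : Finset (Fin L × Fin L)) (F : Bool × Fin L × Fin (L + 1) → ℝ≥0∞) :
    (∏ α, if KR3_A R α then F α else 1) =
      (∏ b, ∏ j ∈ adg (rw1 R b), F (false, b, j)) * ∏ i, ∏ j ∈ adg (rw2 R i), F (true, i, j) := by
  rw [Fintype.prod_prod_type, Fintype.prod_bool, mul_comm]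
  congr 1
  · rw [Fintype.prod_prod_type]
    refine Finset.prod_congr rfl fun b _ => ?_
    unfold KR3_A
    simp only [Bool.false_eq_true, if_false]
    rw [Finset.prod_ite_mem, Finset.univ_inter]
  · rw [Fintype.prod_prod_type]
    refine Finset.prod_congr rfl fun b _ => ?_
    unfold KR3_A
    simp only [if_true]
    rw [Finset.prod_ite_mem, Finset.univ_inter]

theorem KR3 (hPRD : PRD_stmt) (hGEO : GEO_stmt) : KR3_stmt := by
  intro L H R hH
  have hH' : (1 : ℝ) ≤ H := by exact_mod_cast hH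
  obtain ⟨g1, -, -, -, -, g6⟩ := hGEO H hH
  set t : ℝ := 1 / (2 * (H : ℝ)) with ht
  have ht0 : 0 ≤ t := by positivity
  have hHt : (H : ℝ) * t = 1 / 2 := by
    rw [ht]
    field_simp
  have g7 : ∑' j : ℕ, wt H j * ENNReal.ofReal ((1 + t) ^ j) = 2 := by
    rw [g6 t ht0 (by rw [hHt]; norm_num), hHt]
    norm_num
  -- pointwise bound
  have hpt : ∀ x : Bool × Fin L × Fin (L + 1) → ℕ, (n3 (ga x) (gc x) R : ℝ≥0∞) ≤
      (9 * (H : ℝ≥0∞) ^ 2) ^ R.card *
        ∏ α, (if KR3_A R α then ENNReal.ofReal ((1 + t) ^ x α) else 1) := by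
    intro x
    unfold n3
    rw [Nat.cast_mul, Nat.cast_prod, Nat.cast_prod]
    have k1 : ∏ b, (bin (rw1 R b) (ga x b) : ℝ≥0∞) ≤ (3 * (H : ℝ≥0∞)) ^ R.card *
        ∏ b, ∏ j ∈ adg (rw1 R b), ENNReal.ofReal ((1 + t) ^ x (false, b, j)) := by
      refine (Finset.prod_le_prod' fun b _ => KR3_enn hH (rw1 R b) (ga x b)).trans (le_of_eq ?_)
      rw [Finset.prod_mul_distrib, Finset.prod_pow_eq_pow_sum, KR3_rw1]
      rfl
    have k2 : ∏ i, (bin (rw2 R i) (gc x i) : ℝ≥0∞) ≤ (3 * (H : ℝ≥0∞)) ^ R.card *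
        ∏ i, ∏ j ∈ adg (rw2 R i), ENNReal.ofReal ((1 + t) ^ x (true, i, j)) := by
      refine (Finset.prod_le_prod' fun b _ => KR3_enn hH (rw2 R b) (gc x b)).trans (le_of_eq ?_)
      rw [Finset.prod_mul_distrib, Finset.prod_pow_eq_pow_sum, KR3_rw2]
      rfl
    refine (mul_le_mul' k1 k2).trans (le_of_eq ?_)
    rw [KR3_split R (fun α => ENNReal.ofReal ((1 + t) ^ x α))]
    have e : (9 * (H : ℝ≥0∞) ^ 2) ^ R.card = (3 * (H : ℝ≥0∞)) ^ R.card * (3 * (H : ℝ≥0∞)) ^ R.card := by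
      rw [← mul_pow]
      congr 1
      ring
    rw [e]
    ring
  -- the expectation of the bound
  have hex : Ex H (fun x : Bool × Fin L × Fin (L + 1) → ℕ => (9 * (H : ℝ≥0∞) ^ 2) ^ R.card *
        ∏ α, (if KR3_A R α then ENNReal.ofReal ((1 + t) ^ x α) else 1)) =
      (9 * (H : ℝ≥0∞) ^ 2) ^ R.card * ∏ α : Bool × Fin L × Fin (L + 1), (if KR3_A R α then 2 else 1) := by
    unfold Ex
    have e1 : ∀ x : Bool × Fin L × Fin (L + 1) → ℕ, (∏ i, wt H (x i)) * ((9 * (H : ℝ≥0∞) ^ 2) ^ R.card *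
        ∏ α, (if KR3_A R α then ENNReal.ofReal ((1 + t) ^ x α) else 1)) =
        (9 * (H : ℝ≥0∞) ^ 2) ^ R.card * ∏ α, (wt H (x α) *
          (if KR3_A R α then ENNReal.ofReal ((1 + t) ^ x α) else 1)) := by
      intro x
      rw [Finset.prod_mul_distrib]
      ring
    rw [tsum_congr e1, ENNReal.tsum_mul_left,
      hPRD (Bool × Fin L × Fin (L + 1)) (fun α j => wt H j *
        (if KR3_A R α then ENNReal.ofReal ((1 + t) ^ j) else 1))]
    congr 1
    refine Finset.prod_congr rfl fun α _ => ?_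
    by_cases hα : KR3_A R α
    · simp only [if_pos hα]
      exact g7
    · simp only [if_neg hα, mul_one]
      exact g1
  have hmono : Ex H (fun x : Bool × Fin L × Fin (L + 1) → ℕ => (n3 (ga x) (gc x) R : ℝ≥0∞)) ≤
      Ex H (fun x : Bool × Fin L × Fin (L + 1) → ℕ => (9 * (H : ℝ≥0∞) ^ 2) ^ R.card *
        ∏ α, (if KR3_A R α then ENNReal.ofReal ((1 + t) ^ x α) else 1)) := by
    unfold Ex
    exact ENNReal.tsum_le_tsum fun x => mul_le_mul' le_rfl (hpt x)
  refine hmono.trans ?_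
  rw [hex, KR3_split R (fun _ => 2)]
  simp only [Finset.prod_const]
  rw [Finset.prod_pow_eq_pow_sum, Finset.prod_pow_eq_pow_sum]
  have s1 : ∑ b, (adg (rw1 R b)).card ≤ 2 * R.card := by
    refine (Finset.sum_le_sum fun b _ => KR3_adg (rw1 R b)).trans ?_
    rw [← Finset.mul_sum, KR3_rw1]
  have s2 : ∑ b, (adg (rw2 R b)).card ≤ 2 * R.card := by
    refine (Finset.sum_le_sum fun b _ => KR3_adg (rw2 R b)).trans ?_
    rw [← Finset.mul_sum, KR3_rw2]
  have p1 : (2 : ℝ≥0∞) ^ (∑ b, (adg (rw1 R b)).card) ≤ 2 ^ (2 * R.card) :=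
    pow_le_pow_right₀ (by norm_num) s1
  have p2 : (2 : ℝ≥0∞) ^ (∑ b, (adg (rw2 R b)).card) ≤ 2 ^ (2 * R.card) :=
    pow_le_pow_right₀ (by norm_num) s2
  refine (mul_le_mul' le_rfl (mul_le_mul' p1 p2)).trans (le_of_eq ?_)
  rw [pow_mul, ← mul_pow, ← mul_pow]
  congr 1
  ring

end

end Pool.Agent.DSW
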